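import Pool.Agent.Lib.MP_20f07a_co.Proof

/-!
MP_20f07a_co: an infinite, connected, locally finite, vertex-transitive graph `G` with survival
number `s(G) = 2` whose growth is not bounded by any linear function.
-/

namespace Pool.Agent.Results.MP_20f07a_co.SurvivalTwoQuadratic

open Pool.Agent.Lib.MP_20f07a_co

/-- **Main result.**  There is an infinite, connected, locally finite, vertex-transitive graph with
survival number `2` whose growth function is not bounded above by any linear function. -/
theorem result : ∃ (V : Type) (G : SimpleGraph V), Infinite V ∧ G.Connected ∧
    (∀ v, (G.neighborSet v).Finite) ∧ VertexTransitive G ∧ survivalNumber G = 2 ∧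
    ¬ LinearGrowth G := by
  refine ⟨Vtx, G, ?_, connected, locallyFinite, vertexTransitive, survivalNumber_eq, not_linear⟩
  exact Prod.infinite_of_left

end Pool.Agent.Results.MP_20f07a_co.SurvivalTwoQuadratic
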